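import Pool.Agent.H52.HMS.LBase

/-!
# HMS box 1 (LLL), module LCLP: clipped loops are polynomial time
-/

set_option autoImplicit false

namespace Pool.HMS

open TMLib Finset

theorem sz_clip_le {β : Type} [Enc β] (K : ℕ) (d s : β) : sz (clip K d s) ≤ K + sz d := by
  unfold clip
  split_ifs with h
  · omega
  · omega

theorem PTime_clip {α β : Type} [Enc α] [Enc β] {f : α → β} {K : α → ℕ} (d : β) (hf : PTime f)
    (hK : PTime K) : PTime (fun a => clip (K a) d (f a)) :=
  PTime.ite (PTime.le (PTime.sz' hf) hK) hf (PTime.const d)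

theorem lclp_iter {α β : Type} [Enc α] (K : α → ℕ) (d : β) [Enc β] (f : α → β → β) (a : α) (b : β)
    (k : ℕ) : (fun s : α × β => (s.1, clip (K s.1) d (f s.1 s.2)))^[k] (a, b) =
      (a, (fun b => clip (K a) d (f a b))^[k] b) := by
  induction k with
  | zero => rfl
  | succ k ih => rw [Function.iterate_succ_apply', ih, Function.iterate_succ_apply']

theorem lclp_thm : S_LCLP := by
  refine ⟨?_, ?_⟩
  · intro α β _ _ f s n K d hf hs hn hK
    have hstep : PTime (fun s : α × β => (s.1, clip (K s.1) d (f s.1 s.2))) :=
      PTime.pair (PTime.fst PTime.id) (PTime_clip d hf (hK.comp (PTime.fst PTime.id)))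
    have hb : PB (fun a => 1 + sz a + (sz (s a) + sz (K a) + sz d)) :=
      ((PB.const 1).add PB.sz_self).add ((hs.pb.add hK.pb).add (PB.const (sz d)))
    have h := PTime.iter hstep (PTime.pair PTime.id hs) hn hb (fun a i hi => by
      rw [lclp_iter]
      have h1 : sz ((fun b => clip (K a) d (f a b))^[i] (s a)) ≤ sz (s a) + sz (K a) + sz d := by
        cases i with
        | zero => rw [Function.iterate_zero]; show sz (s a) ≤ _; omega
        | succ i =>
          rw [Function.iterate_succ_apply']
          have h2 := sz_clip_le (K a) d (f a ((fun b => clip (K a) d (f a b))^[i] (s a)))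
          have h3 : sz (K a) = 2 * K a + 1 := sz_nat _
          omega
      simp only [sz_pair]
      omega)
    refine (PTime.snd h).congr fun a => ?_
    rw [lclp_iter]
  · intro α β γ _ _ _ f s l K d hf hs hl hK
    refine PTime.foldl (f := fun a b c => clip (K a) d (f a b c))
      (PTime_clip d hf (hK.comp (PTime.fst PTime.id))) hs hl
      (h := fun a => sz (s a) + sz (K a) + sz d) ((hs.pb.add hK.pb).add (PB.const (sz d)))
      (fun a l' _ => ?_)
    rcases List.eq_nil_or_concat l' with rfl | ⟨l'', c, rfl⟩
    · rw [List.foldl_nil]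
      omega
    · rw [List.concat_eq_append, List.foldl_append, List.foldl_cons, List.foldl_nil]
      have h2 := sz_clip_le (K a) d (f a (l''.foldl (fun b c => clip (K a) d (f a b c)) (s a)) c)
      have h3 : sz (K a) = 2 * K a + 1 := sz_nat _
      omega

end Pool.HMS
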