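import Pool.Agent.H76.HMS.SvStmts

set_option autoImplicit false

namespace Pool.HMS

open TMLib Finset

theorem VCB_cone_zero (A : Set (ℕ → ℚ)) : (0 : ℕ → ℚ) ∈ Cone A :=
  ⟨0, fun _ => 0, fun _ => 0, by simp, by simp⟩

theorem VCB_cone_add (A : Set (ℕ → ℚ)) (u : ℕ → ℚ) (hu : u ∈ Cone A) (v : ℕ → ℚ)
    (hv : v ∈ Cone A) : u + v ∈ Cone A := by
  obtain ⟨k, c, a, h, rfl⟩ := hu
  obtain ⟨k', c', a', h', rfl⟩ := hv
  refine ⟨k + k', fun i => if i < k then c i else c' (i - k),
    fun i => if i < k then a i else a' (i - k), ?_, ?_⟩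
  · intro i hi
    by_cases hk : i < k
    · simp only [hk, if_true]
      exact h i hk
    · simp only [hk, if_false]
      exact h' (i - k) (by omega)
  · rw [Finset.sum_range_add]
    congr 1
    · exact Finset.sum_congr rfl fun i hi => by
        have := Finset.mem_range.1 hi
        simp [this]
    · exact Finset.sum_congr rfl fun i hi => by
        simp

theorem VCB_cone_smul (A : Set (ℕ → ℚ)) (u : ℕ → ℚ) (hu : u ∈ Cone A) (t : ℚ) (ht : 0 ≤ t) :
    t • u ∈ Cone A := by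
  obtain ⟨k, c, a, h, rfl⟩ := hu
  refine ⟨k, fun i => t * c i, a, fun i hi => ⟨mul_nonneg ht (h i hi).1, (h i hi).2⟩, ?_⟩
  rw [Finset.smul_sum]
  exact Finset.sum_congr rfl fun i _ => by rw [smul_smul]

theorem VCB_ic_add (A : Set (ℕ → ℚ)) (u : ℕ → ℚ) (hu : u ∈ IC A) (v : ℕ → ℚ)
    (hv : v ∈ IC A) : u + v ∈ IC A := by
  obtain ⟨k, a, h, rfl⟩ := hu
  obtain ⟨k', a', h', rfl⟩ := hv
  refine ⟨k + k', fun i => if i < k then a i else a' (i - k), ?_, ?_⟩
  · intro i hi
    by_cases hk : i < k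
    · simp only [hk, if_true]
      exact h i hk
    · simp only [hk, if_false]
      exact h' (i - k) (by omega)
  · rw [Finset.sum_range_add]
    congr 1
    · exact Finset.sum_congr rfl fun i hi => by
        have := Finset.mem_range.1 hi
        simp [this]
    · exact Finset.sum_congr rfl fun i hi => by
        simp

theorem VCB_ic_sub (A : Set (ℕ → ℚ)) : IC A ⊆ Cone A := by
  rintro u ⟨k, a, h, rfl⟩
  exact ⟨k, fun _ => 1, a, fun i hi => ⟨zero_le_one, h i hi⟩, by simp⟩

theorem VCB_hom_supp (n : ℕ) (x : ℕ → ℚ) : Supp (n + 1) (hom n x) := by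
  intro i hi
  have h1 : ¬ i < n := by omega
  have h2 : i ≠ n := by omega
  simp [hom, h1, h2]

theorem VCB_hom_n (n : ℕ) (x : ℕ → ℚ) : hom n x n = 1 := by simp [hom]

theorem VCB_hom_lat (n : ℕ) (x : ℕ → ℚ) (hx : Lat n x) : Lat (n + 1) (hom n x) := by
  refine ⟨VCB_hom_supp n x, fun i => ?_⟩
  unfold hom
  split_ifs
  · exact hx.2 i
  · exact ⟨1, by simp⟩
  · exact ⟨0, by simp⟩

theorem VCB_sum_apply (k : ℕ) (f : ℕ → ℕ → ℚ) (i : ℕ) :
    (∑ j ∈ range k, f j) i = ∑ j ∈ range k, f j i := by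
  rw [Finset.sum_apply]

theorem vcb_thm : S_VCB := by
  refine ⟨fun A => ⟨VCB_cone_zero A, VCB_cone_add A, VCB_cone_smul A, ?_⟩,
    fun A => ⟨⟨0, fun _ => 0, by simp, by simp⟩, VCB_ic_add A, VCB_ic_sub A⟩, ?_, ?_, ?_⟩
  · intro x hx y hy a b ha hb _
    exact VCB_cone_add A _ (VCB_cone_smul A x hx a ha) _ (VCB_cone_smul A y hy b hb)
  · rintro n rows u ⟨k, c, a, h, rfl⟩
    constructor
    · intro i hi
      rw [VCB_sum_apply]
      refine Finset.sum_eq_zero fun j hj => ?_
      obtain ⟨x, _, hx⟩ := (h j (Finset.mem_range.1 hj)).2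
      rw [Pi.smul_apply, ← hx, VCB_hom_supp n x i hi, smul_zero]
    · rw [VCB_sum_apply]
      refine Finset.sum_nonneg fun j hj => ?_
      obtain ⟨x, _, hx⟩ := (h j (Finset.mem_range.1 hj)).2
      rw [Pi.smul_apply, ← hx, VCB_hom_n, smul_eq_mul, mul_one]
      exact (h j (Finset.mem_range.1 hj)).1
  · rintro n rows u ⟨k, a, h, rfl⟩
    constructor
    · intro i hi
      rw [VCB_sum_apply]
      refine Finset.sum_eq_zero fun j hj => ?_
      obtain ⟨x, _, hx⟩ := h j (Finset.mem_range.1 hj)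
      rw [← hx, VCB_hom_supp n x i hi]
    · intro i
      rw [VCB_sum_apply]
      have : ∀ j ∈ range k, IsI (a j i) := by
        intro j hj
        obtain ⟨x, hx0, hx⟩ := h j (Finset.mem_range.1 hj)
        rw [← hx]
        exact (VCB_hom_lat n x hx0.1).2 i
      clear h
      induction k with
      | zero => exact ⟨0, by simp⟩
      | succ k ih =>
        rw [Finset.sum_range_succ]
        obtain ⟨z, hz⟩ := ih fun j hj => this j (by
          rw [Finset.mem_range] at hj ⊢; omega)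
        obtain ⟨w, hw⟩ := this k (by simp)
        exact ⟨z + w, by rw [hz, hw]; push_cast; rfl⟩
  · rintro n rows B hB hB1 u ⟨k, c, a, h, rfl⟩ i
    rw [VCB_sum_apply, VCB_sum_apply]
    refine (Finset.abs_sum_le_sum_abs _ _).trans ?_
    rw [Finset.mul_sum]
    refine Finset.sum_le_sum fun j hj => ?_
    obtain ⟨x, hx0, hx⟩ := (h j (Finset.mem_range.1 hj)).2
    have hc := (h j (Finset.mem_range.1 hj)).1
    rw [Pi.smul_apply, Pi.smul_apply, ← hx, VCB_hom_n, smul_eq_mul, smul_eq_mul, mul_one,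
      abs_mul, abs_of_nonneg hc, mul_comm B]
    refine mul_le_mul_of_nonneg_left ?_ hc
    unfold hom
    split_ifs
    · exact (hB x hx0.2).2 i
    · rw [abs_one]; exact hB1
    · rw [abs_zero]; linarith

end Pool.HMS
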