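import Pool.Agent.H76.HMS.SvStmts

set_option autoImplicit false

namespace Pool.HMS

open TMLib Finset

theorem VCM_pow : Primrec₂ (fun a b : ℕ => a ^ b) := by
  have h : Primrec₂ fun a b : ℕ => (Nat.rec 1 (fun _ IH => IH * a) b : ℕ) :=
    Primrec.nat_rec' (f := fun p : ℕ × ℕ => p.2) (g := fun _ : ℕ × ℕ => (1 : ℕ))
      (h := fun (p : ℕ × ℕ) (q : ℕ × ℕ) => q.2 * p.1) Primrec.snd (Primrec.const 1)
      (Primrec.nat_mul.comp (Primrec.snd.comp Primrec.snd) (Primrec.fst.comp Primrec.fst))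
  refine h.of_eq fun a b => ?_
  induction b with
  | zero => simp
  | succ b ih => rw [pow_succ, ← ih]

theorem VCM_sum (F : ℕ → ℕ) (hF : Primrec F) : Primrec fun n => ∑ i ∈ range (n + 1), F i := by
  have h : Primrec fun n : ℕ => (Nat.rec (F 0) (fun k IH => IH + F (k + 1)) n : ℕ) :=
    Primrec.nat_rec' (f := fun n : ℕ => n) (g := fun _ : ℕ => F 0)
      (h := fun (_ : ℕ) (q : ℕ × ℕ) => q.2 + F (q.1 + 1)) Primrec.id (Primrec.const _)
      (Primrec.nat_add.comp (Primrec.snd.comp Primrec.snd)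
        (hF.comp (Primrec.succ.comp (Primrec.fst.comp Primrec.snd))))
  refine h.of_eq fun n => ?_
  induction n with
  | zero => simp
  | succ n ih => rw [Finset.sum_range_succ, ← ih]

theorem VCM_le_sum (F : ℕ → ℕ) (n i : ℕ) (h : i ≤ n) : F i ≤ ∑ i ∈ range (n + 1), F i :=
  Finset.single_le_sum (f := F) (fun _ _ => Nat.zero_le _) (by simp; omega)

theorem VCM_sRk : Primrec₂ sRk := by
  have h : Primrec₂ fun w e : ℕ => (Nat.rec 0 (fun _ IH => 1 + w * IH) e : ℕ) :=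
    Primrec.nat_rec' (f := fun p : ℕ × ℕ => p.2) (g := fun _ : ℕ × ℕ => (0 : ℕ))
      (h := fun (p : ℕ × ℕ) (q : ℕ × ℕ) => 1 + p.1 * q.2) Primrec.snd (Primrec.const 0)
      (Primrec.nat_add.comp (Primrec.const 1)
        (Primrec.nat_mul.comp (Primrec.fst.comp Primrec.fst) (Primrec.snd.comp Primrec.snd)))
  refine h.of_eq fun w e => ?_
  induction e with
  | zero => rfl
  | succ e ih => rw [sRk, ← ih]

theorem VCM_qNum : Primrec₂ qNum := by
  unfold qNum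
  have h1 : Primrec fun p : ℕ × ℕ => (p.1 + 1) ^ 2 :=
    VCM_pow.comp (Primrec.succ.comp Primrec.fst) (Primrec.const 2)
  have h2 : Primrec fun p : ℕ × ℕ => 8 * p.2 ^ 3 + 1 :=
    Primrec.succ.comp (Primrec.nat_mul.comp (Primrec.const 8)
      (VCM_pow.comp Primrec.snd (Primrec.const 3)))
  exact Primrec.nat_mul.comp h1 (Primrec.nat_add.comp (Primrec.const 1)
    (Primrec.nat_mul.comp (Primrec.nat_mul.comp (Primrec.const 2) h2)
      (Primrec.succ.comp Primrec.snd)))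

theorem VCM_dimB : Primrec fun p : (ℕ × ℕ) × ℕ => dimB p.1.1 p.1.2 p.2 := by
  have hd : Primrec fun r : ((ℕ × ℕ) × ℕ) × (ℕ × ℕ) => r.1.1.1 :=
    Primrec.fst.comp (Primrec.fst.comp Primrec.fst)
  have hw : Primrec fun r : ((ℕ × ℕ) × ℕ) × (ℕ × ℕ) => r.1.1.2 :=
    Primrec.snd.comp (Primrec.fst.comp Primrec.fst)
  have hI : Primrec fun r : ((ℕ × ℕ) × ℕ) × (ℕ × ℕ) => r.2.2 := Primrec.snd.comp Primrec.snd
  have h : Primrec fun p : (ℕ × ℕ) × ℕ =>
      (Nat.rec (p.1.1 + 1)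
        (fun _ IH => IH + (p.1.1 + 1) * qNum p.1.1 IH + p.1.2 * (p.1.1 + 1)) p.2 : ℕ) :=
    Primrec.nat_rec' (f := fun p : (ℕ × ℕ) × ℕ => p.2)
      (g := fun p : (ℕ × ℕ) × ℕ => p.1.1 + 1)
      (h := fun (p : (ℕ × ℕ) × ℕ) (q : ℕ × ℕ) =>
        q.2 + (p.1.1 + 1) * qNum p.1.1 q.2 + p.1.2 * (p.1.1 + 1)) Primrec.snd
      (Primrec.succ.comp (Primrec.fst.comp Primrec.fst))
      (Primrec.nat_add.comp
        (Primrec.nat_add.comp hI
          (Primrec.nat_mul.comp (Primrec.succ.comp hd) (VCM_qNum.comp hd hI)))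
        (Primrec.nat_mul.comp hw (Primrec.succ.comp hd)))
  refine h.of_eq fun p => ?_
  obtain ⟨⟨d, w⟩, j⟩ := p
  induction j with
  | zero => rfl
  | succ j ih =>
    simp only at ih ⊢
    rw [dimB, ← ih]

theorem vcm_thm : S_VCM := by
  rintro be bh wd cr ⟨Fb, hFb, hb⟩ ⟨Fh, hFh, hh⟩ ⟨Fw, hFw, hw⟩ ⟨Fc, hFc, hc⟩
  obtain ⟨C, hC⟩ : ∃ C : ℕ → ℕ, C = fun d => (∑ i ∈ range (d + 1), Fc i) + (2 * d + 5) :=
    ⟨_, rfl⟩
  obtain ⟨w, hwd⟩ : ∃ w : ℕ → ℕ, w = fun d => (∑ i ∈ range (d + 1), Fw i) + 1 := ⟨_, rfl⟩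
  obtain ⟨s, hs⟩ : ∃ s : ℕ → ℕ, s = fun d => sRk (w d) d := ⟨_, rfl⟩
  obtain ⟨N, hN⟩ : ∃ N : ℕ → ℕ, N = fun d => dimB d (w d) (s d) := ⟨_, rfl⟩
  obtain ⟨m, hm⟩ : ∃ m : ℕ → ℕ, m = fun d => ∑ i ∈ range (N d + 1), Fb i := ⟨_, rfl⟩
  have pC : Primrec C := by
    rw [hC]
    exact Primrec.nat_add.comp (VCM_sum Fc hFc)
      (Primrec.nat_add.comp (Primrec.nat_mul.comp (Primrec.const 2) Primrec.id) (Primrec.const 5))
  have pw : Primrec w := by
    rw [hwd]
    exact Primrec.succ.comp (VCM_sum Fw hFw)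
  have ps : Primrec s := by
    rw [hs]
    exact VCM_sRk.comp pw Primrec.id
  have pN : Primrec N := by
    rw [hN]
    exact VCM_dimB.comp (Primrec.pair (Primrec.pair Primrec.id pw) ps)
  have pm : Primrec m := by
    rw [hm]
    exact (VCM_sum Fb hFb).comp pN
  have pH : Primrec fun d => ∑ i ∈ range (d + 1), Fh i := VCM_sum Fh hFh
  have p4 : Primrec fun d => 10000 * (d + 2) ^ 2 * C d ^ (d + 1) * (N d + 1) :=
    Primrec.nat_mul.comp
      (Primrec.nat_mul.comp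
        (Primrec.nat_mul.comp (Primrec.const 10000)
          (VCM_pow.comp (Primrec.nat_add.comp Primrec.id (Primrec.const 2)) (Primrec.const 2)))
        (VCM_pow.comp pC Primrec.succ)) (Primrec.succ.comp pN)
  have p5 : Primrec fun d => (m d + 2) ^ (s d + 1) :=
    VCM_pow.comp (Primrec.nat_add.comp pm (Primrec.const 2)) (Primrec.succ.comp ps)
  refine ⟨C, w, m, fun d => m d + (∑ i ∈ range (d + 1), Fh i) + w d +
    10000 * (d + 2) ^ 2 * C d ^ (d + 1) * (N d + 1) + (m d + 2) ^ (s d + 1),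
    ⟨_, Primrec.nat_add.comp (Primrec.nat_add.comp (Primrec.nat_add.comp
      (Primrec.nat_add.comp pm pH) pw) p4) p5, fun _ => le_rfl⟩, ?_⟩
  intro d b hb'
  simp only at hb'
  have eN : N d = dimB d (w d) (sRk (w d) d) := by rw [hN, hs]
  have es : s d = sRk (w d) d := by rw [hs]
  refine ⟨by rw [hC]; simp only; omega, ?_⟩
  constructor
  · intro D hD
    rw [← eN] at hD
    refine (hb D).trans ?_
    rw [hm]
    exact VCM_le_sum Fb (N d) D hD
  · omega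
  · intro e he
    have h1 := (hh e).trans (VCM_le_sum Fh d e he)
    omega
  · intro e he
    have h1 := (hc e).trans (VCM_le_sum Fc d e he)
    rw [hC]
    simp only
    omega
  · intro e he
    have h1 := (hw e).trans (VCM_le_sum Fw d e he)
    rw [hwd]
    simp only
    omega
  · omega
  · rw [← eN]
    omega
  · rw [← es]
    omega

end Pool.HMS
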