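import Pool.Agent.H76.HMS.SvStmts

set_option autoImplicit false

namespace Pool.HMS

open TMLib Finset

theorem vd0_thm : S_VD0 := by
  rintro rows ys hL ⟨k, c, a, h, hu⟩
  have hom0 : ∀ x : ℕ → ℚ, hom 0 x = fun i => if i = 0 then (1 : ℚ) else 0 := by
    intro x; funext i; simp [hom]
  by_cases hk : k = 0
  · subst hk
    refine ⟨0, fun _ => 0, by simp, ?_⟩
    rw [hu]; simp
  · obtain ⟨x, hx0, hx⟩ := (h 0 (by omega)).2
    have hai : ∀ i < k, a i = a 0 := by
      intro i hi
      obtain ⟨x', _, hx'⟩ := (h i hi).2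
      rw [← hx, ← hx', hom0, hom0]
    have hys : ys = (∑ i ∈ range k, c i) • a 0 := by
      rw [hu, Finset.sum_smul]
      exact Finset.sum_congr rfl fun i hi => by rw [hai i (Finset.mem_range.1 hi)]
    have h00 : a 0 0 = 1 := by rw [← hx, hom0]; simp
    have hy0 : ys 0 = ∑ i ∈ range k, c i := by
      rw [hys, Pi.smul_apply, h00, smul_eq_mul, mul_one]
    have hnn : 0 ≤ ys 0 := by
      rw [hy0]
      exact Finset.sum_nonneg fun i hi => (h i (Finset.mem_range.1 hi)).1
    obtain ⟨z, hz⟩ := hL.2 0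
    have hz0 : 0 ≤ z := by
      rw [hz] at hnn
      exact_mod_cast hnn
    obtain ⟨n, rfl⟩ := Int.eq_ofNat_of_zero_le hz0
    refine ⟨n, fun _ => a 0, fun _ _ => (h 0 (by omega)).2, ?_⟩
    rw [Finset.sum_const, Finset.card_range, hys, ← hy0, hz]
    funext i
    simp

end Pool.HMS
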