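import Pool.Agent.H76.HMS.SvStmts

set_option autoImplicit false

namespace Pool.HMS

open TMLib Finset

theorem VRL_append (d : ℕ) (rows : Mat) (p q : List ENode) : ∀ t : ℕ → ℚ,
    t ∈ RepP d rows (p ++ q) ↔ ∃ t₁ ∈ RepP d rows p, ∃ t₂ ∈ RepP d rows q, t = t₁ + t₂ := by
  induction p with
  | nil =>
    intro t
    constructor
    · intro h
      exact ⟨0, rfl, t, h, by simp⟩
    · rintro ⟨t₁, h₁, t₂, h₂, rfl⟩
      have : t₁ = 0 := h₁
      subst this
      simpa using h₂
  | cons x p ih =>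
    intro t
    constructor
    · rintro ⟨u, hu, t', ht', rfl⟩
      obtain ⟨t₁, h₁, t₂, h₂, rfl⟩ := (ih t').1 ht'
      exact ⟨embH d x.1 x.2.1 u + t₁, ⟨u, hu, t₁, h₁, rfl⟩, t₂, h₂, by rw [add_assoc]⟩
    · rintro ⟨t₁, ⟨u, hu, t', ht', rfl⟩, t₂, h₂, rfl⟩
      exact ⟨u, hu, t' + t₂, (ih _).2 ⟨t', ht', t₂, h₂, rfl⟩, by rw [add_assoc]⟩

theorem VRL_sing_add (A : Set (ℕ → ℚ)) (m n : ℕ) (u v : ℕ → ℚ) (hu : u ∈ SingS m A)
    (hv : v ∈ SingS n A) : u + v ∈ SingS (m + n) A := by
  obtain ⟨k, a, hk, h, rfl⟩ := hu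
  obtain ⟨k', a', hk', h', rfl⟩ := hv
  refine ⟨k + k', fun i => if i < k then a i else a' (i - k), by omega, ?_, ?_⟩
  · intro i hi
    by_cases hk : i < k
    · simp only [hk, if_true]
      exact h i hk
    · simp only [hk, if_false]
      exact h' (i - k) (by omega)
  · rw [Finset.sum_range_add]
    congr 1
    · exact Finset.sum_congr rfl fun i hi => by
        have := Finset.mem_range.1 hi
        simp [this]
    · exact Finset.sum_congr rfl fun i hi => by
        simp

theorem vrl_thm : S_VRL := by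
  refine ⟨fun d rows p q t => VRL_append d rows p q t, VRL_sing_add, ?_, ?_⟩
  · rintro A m n hmn u ⟨k, a, hk, h⟩
    exact ⟨k, a, hk.trans hmn, h⟩
  · intro d rows p
    induction p with
    | nil =>
      intro us _
      simp [RepP]
    | cons x p ih =>
      intro us h
      refine ⟨us 0, ?_, _, ih (fun l => us (l + 1)) ?_, ?_⟩
      · simpa using h 0 (by simp)
      · intro l hl
        simpa using h (l + 1) (by simpa using hl)
      · rw [List.length_cons, Finset.sum_range_succ', add_comm]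
        simp

end Pool.HMS
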