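import Pool.Agent.H76.HMS.SvStmts

set_option autoImplicit false

namespace Pool.HMS

open TMLib Finset

theorem VSG_zero (d : ℕ) (rows : Mat)
    (hp : ∀ x, Supp d x → (∀ r ∈ rows, 0 ≤ lin d (fun i => fn r (i + 1)) x) → ∀ i, x i = 0)
    (u : ℕ → ℚ) (hs : Supp (d + 1) u) (hu : SingR d rows u) (h0 : u d = 0) : u = 0 := by
  have h := hp (fun i => if i < d then u i else 0)
    (fun i hi => by simp [not_lt.2 hi]) (fun r hr => by
      have := hu.1 r hr
      rw [h0, mul_zero, zero_add] at this
      refine this.trans (le_of_eq ?_)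
      unfold lin
      exact Finset.sum_congr rfl fun i hi => by simp [Finset.mem_range.1 hi])
  funext i
  rcases lt_trichotomy i d with hi | hi | hi
  · have := h i
    simpa [hi] using this
  · rw [hi, h0]; rfl
  · exact hs i hi

theorem VSG_poly (d : ℕ) (rows : Mat) (u : ℕ → ℚ) (hu : SingR d rows u) (h0 : 0 < u d) :
    (fun i => if i < d then u i / u d else 0) ∈ Poly d rows := by
  refine ⟨fun i hi => by simp [not_lt.2 hi], fun r hr => ?_⟩
  have h := hu.1 r hr
  have : aff d (fn r) (fun i => if i < d then u i / u d else 0) =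
      (fn r 0 * u d + ∑ i ∈ range d, fn r (i + 1) * u i) / u d := by
    unfold aff
    rw [add_div, mul_div_assoc, div_self h0.ne', mul_one, Finset.sum_div]
    congr 1
    exact Finset.sum_congr rfl fun i hi => by simp [Finset.mem_range.1 hi, mul_div_assoc]
  rw [this]
  exact div_nonneg h h0.le

theorem vsg_thm : S_VSG := by
  intro d rows hp
  refine ⟨fun u hL => ⟨fun hu => ?_, ?_⟩, fun B hB hbox u hs hu i => ?_⟩
  · obtain ⟨z, hz⟩ := hL.2 d
    have h1 := hu.2.1
    have h2 := hu.2.2
    rw [hz] at h1 h2
    have h1' : 0 ≤ z := by exact_mod_cast h1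
    have h2' : z ≤ 1 := by exact_mod_cast h2
    have : z = 0 ∨ z = 1 := by omega
    rcases this with rfl | rfl
    · exact Or.inl (VSG_zero d rows hp u hL.1 hu (by rw [hz]; simp))
    · right
      have hd1 : u d = 1 := by rw [hz]; simp
      have hpol := VSG_poly d rows u hu (by rw [hd1]; exact zero_lt_one)
      refine ⟨_, ⟨⟨hpol.1, fun i => ?_⟩, hpol⟩, ?_⟩
      · by_cases hi : i < d
        · simp only [hi, if_true, hd1, div_one]
          exact hL.2 i
        · simp only [hi, if_false]
          exact ⟨0, by simp⟩
      · funext i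
        unfold hom
        rcases lt_trichotomy i d with hi | hi | hi
        · simp [hi, hd1]
        · simp [hi, hd1]
        · have h3 : ¬ i < d := by omega
          have h4 : i ≠ d := by omega
          simp only [h3, if_false, h4]
          exact (hL.1 i hi).symm
  · rintro (rfl | ⟨x, hx, rfl⟩)
    · refine ⟨fun r _ => by simp, by simp, by simp⟩
    · have hd : hom d x d = 1 := by simp [hom]
      refine ⟨fun r hr => ?_, by rw [hd]; exact zero_le_one, by rw [hd]⟩
      have h := hx.2.2 r hr
      refine h.trans (le_of_eq ?_)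
      unfold aff
      rw [hd, mul_one]
      congr 1
      exact Finset.sum_congr rfl fun i hi => by simp [hom, Finset.mem_range.1 hi]
  · rcases lt_trichotomy i d with hi | hi | hi
    · rcases hu.2.1.lt_or_eq with h0 | h0
      · have h := (hbox _ (VSG_poly d rows u hu h0)).2 i
        simp only [hi, if_true] at h
        rw [abs_div, abs_of_pos h0, div_le_iff₀ h0] at h
        nlinarith [hu.2.2, abs_nonneg (u i)]
      · rw [VSG_zero d rows hp u hs hu h0.symm]
        simp only [Pi.zero_apply, abs_zero]
        linarith
    · rw [hi, abs_of_nonneg hu.2.1]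
      linarith [hu.2.2]
    · rw [hs i hi, abs_zero]
      linarith

end Pool.HMS
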